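import Pool.Agent.N798.H.Stm2

set_option autoImplicit false

/-!
Project HS (helper798), task SD: from dyadic ranges to the full range `(√N, N]`.
-/

namespace Pool.Agent.N286.HS

open Finset MeasureTheory Filter Topology
open scoped ENNReal
open Pool.Agent.N798.T Pool.Agent.N798.HS

lemma vl_meas' (b : ℤ) : Measurable (vl b) := by
  unfold vl
  exact (measurable_of_countable (fun z : ℤ => (z + b).toNat)).comp Int.measurable_floor

lemma Fp_meas (b : ℤ) (s : ℝ) (m : ℕ) : Measurable fun x => Fp b s x m := by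
  unfold Fp
  have h1 : Measurable fun x : ℝ => Real.exp (s + x) * m := by fun_prop
  exact (measurable_of_countable (fun n : ℕ => if n.Prime then (1 : ℂ) else 0)).comp
    ((vl_meas' b).comp h1)

lemma Mp_meas (s : ℝ) (m : ℕ) : Measurable fun x => Mp s x m := by
  unfold Mp
  have h0 : Measurable fun x : ℝ => Real.exp (s + x) * m := by fun_prop
  have h1 : Measurable fun x : ℝ => 1 / Real.log (Real.exp (s + x) * m) :=
    measurable_const.div (Real.measurable_log.comp h0)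
  exact Complex.measurable_ofReal.comp h1

lemma blocks (f : ℕ → ℂ) (M : ℕ → ℕ) (hM : Monotone M) (L : ℕ) :
    ∑ j ∈ Ioc (M 0) (M L), f j = ∑ i ∈ range L, ∑ j ∈ Ioc (M i) (M (i + 1)), f j := by
  induction L with
  | zero => simp
  | succ L ih =>
    rw [sum_range_succ, ← ih, Finset.sum_Ioc_consecutive f (hM (Nat.zero_le L)) (hM (Nat.le_succ L))]

lemma cs (L : ℕ) (z : ℕ → ℂ) :
    ‖∑ i ∈ range L, z i‖ₑ ^ 2 ≤ (L : ℝ≥0∞) * ∑ i ∈ range L, ‖z i‖ₑ ^ 2 := by
  have h1 : ‖∑ i ∈ range L, z i‖ ^ 2 ≤ L * ∑ i ∈ range L, ‖z i‖ ^ 2 := by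
    calc ‖∑ i ∈ range L, z i‖ ^ 2 ≤ (∑ i ∈ range L, ‖z i‖) ^ 2 :=
          pow_le_pow_left₀ (norm_nonneg _) (norm_sum_le _ _) 2
      _ ≤ #(range L) * ∑ i ∈ range L, ‖z i‖ ^ 2 := sq_sum_le_card_mul_sum_sq
      _ = _ := by rw [card_range]
  have e : ∀ w : ℂ, ‖w‖ₑ ^ 2 = ENNReal.ofReal (‖w‖ ^ 2) := fun w => by
    rw [← ofReal_norm, ENNReal.ofReal_pow (norm_nonneg _)]
  simp only [e]
  rw [← ENNReal.ofReal_sum_of_nonneg (fun i _ => by positivity), ← ENNReal.ofReal_natCast,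
    ← ENNReal.ofReal_mul (by positivity)]
  exact ENNReal.ofReal_le_ofReal h1

theorem sd (h : S_SC) : S_SD := by
  intro u hu b s K
  obtain ⟨D, N1, hD, hN1, hSC⟩ := h u hu b s (K + 2)
  refine ⟨16 * (D * 4 ^ (K + 2)), N1 ^ 2, by positivity, ?_, ?_⟩
  · nlinarith
  intro N hN w hw
  set r := Nat.sqrt N with hr
  have hrN1 : N1 ≤ r := by
    rw [hr, Nat.le_sqrt']
    exact hN
  have hr2 : 2 ≤ r := hN1.trans hrN1
  have hrN : r ≤ N := Nat.sqrt_le_self N
  have hN2 : 2 ≤ N := hr2.trans hrN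
  set L := Nat.log 2 N + 1 with hL
  set M : ℕ → ℕ := fun i => min N (2 ^ i * r) with hM
  have hMmono : Monotone M := by
    intro i j hij
    exact min_le_min le_rfl (Nat.mul_le_mul_right r (Nat.pow_le_pow_right (by norm_num) hij))
  have hM0 : M 0 = r := by
    simp only [hM, pow_zero, one_mul]
    exact min_eq_right hrN
  have hML : M L = N := by
    simp only [hM]
    refine min_eq_left ?_
    have h1 : N < 2 ^ L := Nat.lt_pow_succ_log_self (by norm_num) N
    calc N ≤ 2 ^ L := h1.le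
      _ = 2 ^ L * 1 := (mul_one _).symm
      _ ≤ 2 ^ L * r := Nat.mul_le_mul_left _ (by omega)
  have hMr : ∀ i, r ≤ M i := fun i => hM0 ▸ hMmono (Nat.zero_le i)
  have hMN : ∀ i, M i ≤ N := fun i => min_le_left _ _
  have hMs : ∀ i, M (i + 1) ≤ 2 * M i := by
    intro i
    simp only [hM]
    rcases le_total N (2 ^ i * r) with h1 | h1
    · rw [min_eq_left h1]
      exact (min_le_left _ _).trans (by omega)
    · rw [min_eq_right h1]
      refine (min_le_right _ _).trans (le_of_eq ?_)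
      rw [pow_succ]
      ring
  -- logarithms
  have hNpos : (0 : ℝ) < N := by
    have : 0 < N := by omega
    exact_mod_cast this
  have hrpos : (0 : ℝ) < r := by
    have : 0 < r := by omega
    exact_mod_cast this
  have hl2 : (1 / 2 : ℝ) < Real.log 2 := by linarith [Real.log_two_gt_d9]
  have hl2r : Real.log 2 ≤ Real.log r :=
    Real.log_le_log (by norm_num) (by exact_mod_cast hr2)
  have hlN2 : Real.log 2 ≤ Real.log N :=
    Real.log_le_log (by norm_num) (by exact_mod_cast hN2)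
  have hlNr : Real.log N ≤ 4 * Real.log r := by
    have h1 : N ≤ (2 * r) ^ 2 := by
      have h2 : N < (r + 1) ^ 2 := Nat.lt_succ_sqrt' N
      have h3 : (r + 1) ^ 2 ≤ (2 * r) ^ 2 := Nat.pow_le_pow_left (by omega) 2
      exact h2.le.trans h3
    have h2 : (N : ℝ) ≤ (2 * r) ^ 2 := by exact_mod_cast h1
    have h3 : Real.log N ≤ Real.log ((2 * (r : ℝ)) ^ 2) := Real.log_le_log hNpos h2
    rw [Real.log_pow, Real.log_mul (by norm_num) hrpos.ne'] at h3
    push_cast at h3
    linarith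
  have hlN : 0 < Real.log N := by linarith
  have hLle : (L : ℝ) ≤ 4 * Real.log N := by
    have h1 : 2 ^ Nat.log 2 N ≤ N := Nat.pow_log_le_self 2 (by omega)
    have h2 : ((2 : ℝ) ^ Nat.log 2 N) ≤ N := by exact_mod_cast h1
    have h3 := Real.log_le_log (by positivity) h2
    rw [Real.log_pow] at h3
    have h4 : (0 : ℝ) ≤ Nat.log 2 N := Nat.cast_nonneg _
    rw [hL]
    push_cast
    nlinarith
  -- each block
  set f : ℝ → ℕ → ℂ := fun x j => w j * (Fp b s x (u j) - Mp s x (u j)) with hf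
  set Q : ℝ := D * N ^ 2 * 4 ^ (K + 2) / (Real.log N) ^ (K + 2) with hQ
  have hQ0 : 0 ≤ Q := by rw [hQ]; positivity
  have hblock : ∀ i, ∫⁻ x in Set.Icc (0 : ℝ) 1, ‖∑ j ∈ Ioc (M i) (M (i + 1)), f x j‖ₑ ^ 2 ≤
      ENNReal.ofReal Q := by
    intro i
    refine (hSC (M i) (M (i + 1)) (hrN1.trans (hMr i)) (hMmono (Nat.le_succ i)) (hMs i) w hw).trans
      (ENNReal.ofReal_le_ofReal ?_)
    have h1 : (M i : ℝ) ≤ N := by exact_mod_cast hMN i
    have h2 : (r : ℝ) ≤ M i := by exact_mod_cast hMr i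
    have h3 : Real.log r ≤ Real.log (M i) := Real.log_le_log hrpos h2
    have h4 : Real.log N / 4 ≤ Real.log (M i) := by linarith
    have h5 : (Real.log N / 4) ^ (K + 2) ≤ (Real.log (M i)) ^ (K + 2) :=
      pow_le_pow_left₀ (by positivity) h4 _
    have h6 : (0 : ℝ) < (Real.log N / 4) ^ (K + 2) := by positivity
    have h7 : (M i : ℝ) ^ 2 ≤ (N : ℝ) ^ 2 := pow_le_pow_left₀ (Nat.cast_nonneg _) h1 2
    calc D * (M i : ℝ) ^ 2 / (Real.log (M i)) ^ (K + 2)
        ≤ D * (N : ℝ) ^ 2 / (Real.log N / 4) ^ (K + 2) :=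
          div_le_div₀ (by positivity) (mul_le_mul_of_nonneg_left h7 hD) h6 h5
      _ = Q := by
          rw [hQ, div_pow, div_div_eq_mul_div]
  have hmeas : ∀ i, Measurable fun x => ‖∑ j ∈ Ioc (M i) (M (i + 1)), f x j‖ₑ ^ 2 := by
    intro i
    have h1 : Measurable fun x => ∑ j ∈ Ioc (M i) (M (i + 1)), f x j :=
      Finset.measurable_fun_sum _ fun j _ =>
        ((Fp_meas b s (u j)).sub (Mp_meas s (u j))).const_mul (w j)
    exact h1.enorm.pow_const 2
  calc ∫⁻ x in Set.Icc (0 : ℝ) 1, ‖∑ j ∈ Ioc r N, f x j‖ₑ ^ 2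
      ≤ ∫⁻ x in Set.Icc (0 : ℝ) 1,
          (L : ℝ≥0∞) * ∑ i ∈ range L, ‖∑ j ∈ Ioc (M i) (M (i + 1)), f x j‖ₑ ^ 2 := by
        refine lintegral_mono fun x => ?_
        have h1 := blocks (f x) M hMmono L
        rw [hM0, hML] at h1
        show ‖∑ j ∈ Ioc r N, f x j‖ₑ ^ 2 ≤ _
        rw [h1]
        exact cs L _
    _ = (L : ℝ≥0∞) * ∑ i ∈ range L,
          ∫⁻ x in Set.Icc (0 : ℝ) 1, ‖∑ j ∈ Ioc (M i) (M (i + 1)), f x j‖ₑ ^ 2 := by
        rw [lintegral_const_mul' _ _ (ENNReal.natCast_ne_top L), lintegral_finsetSum]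
        exact fun i _ => hmeas i
    _ ≤ (L : ℝ≥0∞) * ∑ i ∈ range L, ENNReal.ofReal Q := by
        gcongr with i _
        exact hblock i
    _ = ENNReal.ofReal (L * (L * Q)) := by
        rw [sum_const, card_range, nsmul_eq_mul, ENNReal.ofReal_mul (by positivity),
          ENNReal.ofReal_mul (by positivity), ENNReal.ofReal_natCast]
    _ ≤ ENNReal.ofReal (16 * (D * 4 ^ (K + 2)) * N ^ 2 / (Real.log N) ^ K) := by
        refine ENNReal.ofReal_le_ofReal ?_
        have h1 : (L : ℝ) * (L * Q) ≤ (4 * Real.log N) * ((4 * Real.log N) * Q) := by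
          have h2 : (0 : ℝ) ≤ L := Nat.cast_nonneg _
          exact mul_le_mul hLle (mul_le_mul_of_nonneg_right hLle hQ0) (by positivity)
            (by positivity)
        refine h1.trans (le_of_eq ?_)
        rw [hQ]
        field_simp
        ring

end Pool.Agent.N286.HS
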